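import Pool.Agent.helper38.VA.Spec

/-! Row va:KMM (MP_a2a22c). -/

set_option autoImplicit false

namespace Pool.Agent.VA

open Matrix Module Pool.Agent.PR Pool.Agent.H48SL

theorem KMM_exp {n : ℕ} (X : MQ n) (h : X * X = 0) : IsNilpotent.exp X = 1 + X := by
  have h2 : X ^ 2 = 0 := by rw [pow_two, h]
  rw [IsNilpotent.exp_eq_sum h2]
  simp [Finset.sum_range_succ]

theorem KMM_key {n : ℕ} (r : Matrix (Fin 2) (Fin n) ℚ) (s : Matrix (Fin n) (Fin 2) ℚ)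
    (G G' : MQ n) (hrs : r * s = 0) (h1 : G * G' = 1) (h2 : G' * G = 1) (x y z : M2) :
    r * ((G' * (1 + s * y * r) * G) * (1 + s * x * r) * (G' * (1 + s * z * r) * G)) * s =
      (r * G' * s) * (y + z) * (r * G * s) +
        (r * G' * s) * y * (r * G * s) * x * (r * G' * s) * z * (r * G * s) := by
  have e1 : ∀ X : Matrix (Fin 2) (Fin 2) ℚ, r * (s * X) = 0 := fun X => by
    rw [← Matrix.mul_assoc, hrs, Matrix.zero_mul]
  have e2 : ∀ X : Matrix (Fin n) (Fin 2) ℚ, G * (G' * X) = X := fun X => by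
    rw [← Matrix.mul_assoc, h1, Matrix.one_mul]
  have e3 : ∀ X : Matrix (Fin n) (Fin 2) ℚ, G' * (G * X) = X := fun X => by
    rw [← Matrix.mul_assoc, h2, Matrix.one_mul]
  simp only [Matrix.mul_assoc, Matrix.add_mul, Matrix.mul_add, Matrix.one_mul, e1, e2, e3, hrs,
    Matrix.mul_zero, add_zero, zero_add]
  abel

theorem KMM_fac (C C' x y z : M2) (hC : C.det ≠ 0) (hC' : C'.det ≠ 0) (hy : y.det ≠ 0)
    (hz : z.det ≠ 0) :
    C' * (y + z) * C + C' * y * C * x * C' * z * C =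
      C' * y * C * (x + C⁻¹ * (y⁻¹ + z⁻¹) * C'⁻¹) * (C' * z * C) := by
  have hC1 : C * C⁻¹ = 1 := Matrix.mul_nonsing_inv C (isUnit_iff_ne_zero.2 hC)
  have hC2 : C'⁻¹ * C' = 1 := Matrix.nonsing_inv_mul C' (isUnit_iff_ne_zero.2 hC')
  have hy1 : y * y⁻¹ = 1 := Matrix.mul_nonsing_inv y (isUnit_iff_ne_zero.2 hy)
  have hz1 : z⁻¹ * z = 1 := Matrix.nonsing_inv_mul z (isUnit_iff_ne_zero.2 hz)
  have e1 : ∀ X : M2, C * (C⁻¹ * X) = X := fun X => by rw [← mul_assoc, hC1, one_mul]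
  have e2 : ∀ X : M2, C'⁻¹ * (C' * X) = X := fun X => by rw [← mul_assoc, hC2, one_mul]
  have e3 : ∀ X : M2, y * (y⁻¹ * X) = X := fun X => by rw [← mul_assoc, hy1, one_mul]
  have e4 : ∀ X : M2, z⁻¹ * (z * X) = X := fun X => by rw [← mul_assoc, hz1, one_mul]
  simp only [mul_assoc, mul_add, add_mul, e1, e2, e3, e4]
  abel

theorem KMM_inv {n : ℕ} (a : SLZ n) (X : MQ n) (hX : X * X = 0) (h : stdM ℚ a = 1 + X) :
    stdM ℚ a⁻¹ = 1 - X := by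
  have h1 : (1 - X) * (1 + X) = 1 := by
    rw [sub_mul, mul_add, mul_add, one_mul, mul_one, one_mul, hX]
    abel
  calc stdM ℚ a⁻¹ = (1 - X) * (1 + X) * stdM ℚ a⁻¹ := by rw [h1, one_mul]
    _ = (1 - X) * (stdM ℚ a * stdM ℚ a⁻¹) := by rw [h, mul_assoc]
    _ = 1 - X := by rw [stdM_mul_inv, mul_one]

theorem KMM_nz (C C' x y z : M2) (hC : C.det ≠ 0) (hC' : C'.det ≠ 0) (hy : y.det ≠ 0)
    (hz : z.det ≠ 0) (hx : x ≠ 0) : C' * y * C * x * (C' * z * C) ≠ 0 := by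
  intro h
  apply hx
  have hu : IsUnit (C' * y * C) := by
    rw [Matrix.isUnit_iff_isUnit_det, Matrix.det_mul, Matrix.det_mul]
    exact isUnit_iff_ne_zero.2 (mul_ne_zero (mul_ne_zero hC' hy) hC)
  have hv : IsUnit (C' * z * C) := by
    rw [Matrix.isUnit_iff_isUnit_det, Matrix.det_mul, Matrix.det_mul]
    exact isUnit_iff_ne_zero.2 (mul_ne_zero (mul_ne_zero hC' hz) hC)
  have h1 : C' * y * C * x = 0 := by
    rwa [hv.mul_left_eq_zero] at h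
  rwa [hu.mul_right_eq_zero] at h1

theorem KMM : KMM_stmt := by
  intro n H R S hRS g hg hC hC' x₁ x₂ x hx₁ hx₂ hx hd₁ hd₂ hdet hne
  have hrs : cq R * cq S = 0 := by
    unfold cq
    rw [← Matrix.map_mul, hRS]
    simp
  have hsq : ∀ y : M2, (cq S * y * cq R) * (cq S * y * cq R) = 0 := by
    intro y
    calc (cq S * y * cq R) * (cq S * y * cq R) = cq S * y * (cq R * cq S) * (y * cq R) := by
          simp only [Matrix.mul_assoc]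
      _ = 0 := by rw [hrs, Matrix.mul_zero, Matrix.zero_mul]
  obtain ⟨a₁, ha₁, e₁⟩ := hx₁
  obtain ⟨a₂, ha₂, e₂⟩ := hx₂
  obtain ⟨a, ha, e⟩ := hx
  rw [KMM_exp _ (hsq _)] at e₁ e₂ e
  have i₁ := KMM_inv a₁ _ (hsq _) e₁
  have i₂ := KMM_inv a₂ _ (hsq _) e₂
  have i := KMM_inv a _ (hsq _) e
  set M := (Cb R S g)⁻¹ * (x₁⁻¹ + x₂⁻¹) * (Cb R S g⁻¹)⁻¹ with hM
  have hm : Cb R S ((g⁻¹ * a₁ * g) * a * (g⁻¹ * a₂ * g)) =
      Cb R S g⁻¹ * x₁ * Cb R S g * (x + M) * (Cb R S g⁻¹ * x₂ * Cb R S g) := by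
    rw [hM, ← KMM_fac _ _ _ _ _ hC hC' hd₁ hd₂]
    have := KMM_key (cq R) (cq S) (stdM ℚ g) (stdM ℚ g⁻¹) hrs (stdM_mul_inv ℚ g)
      (stdM_inv_mul ℚ g) x x₁ x₂
    unfold Cb
    rw [← this]
    simp only [stdM_mul, e₁, e₂, e]
  have hm' : Cb R S ((g⁻¹ * a₁ * g) * a * (g⁻¹ * a₂ * g))⁻¹ =
      -(Cb R S g⁻¹ * x₂ * Cb R S g * (x + M) * (Cb R S g⁻¹ * x₁ * Cb R S g)) := by
    have hM' : M = (Cb R S g)⁻¹ * (x₂⁻¹ + x₁⁻¹) * (Cb R S g⁻¹)⁻¹ := by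
      rw [hM, add_comm x₁⁻¹]
    have h1 : ((g⁻¹ * a₁ * g) * a * (g⁻¹ * a₂ * g))⁻¹ =
        (g⁻¹ * a₂⁻¹ * g) * a⁻¹ * (g⁻¹ * a₁⁻¹ * g) := by group
    rw [h1, hM', ← KMM_fac _ _ _ _ _ hC hC' hd₂ hd₁]
    have := KMM_key (cq R) (cq S) (stdM ℚ g) (stdM ℚ g⁻¹) hrs (stdM_mul_inv ℚ g)
      (stdM_inv_mul ℚ g) (-x) (-x₂) (-x₁)
    unfold Cb
    have e5 : ∀ y : M2, (1 : MQ n) - cq S * y * cq R = 1 + cq S * (-y) * cq R := by
      intro y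
      rw [Matrix.mul_neg, Matrix.neg_mul, sub_eq_add_neg]
    simp only [stdM_mul, i₁, i₂, i, e5]
    rw [this]
    simp only [Matrix.mul_neg, Matrix.neg_mul, Matrix.mul_add, Matrix.add_mul, Matrix.mul_assoc]
    simp only [neg_add, neg_neg]
  refine ⟨(g⁻¹ * a₁ * g) * a * (g⁻¹ * a₂ * g), ?_, ?_, ?_, ?_, ?_⟩
  · exact H.mul_mem (H.mul_mem (H.mul_mem (H.mul_mem (H.inv_mem hg) ha₁) hg) ha)
      (H.mul_mem (H.mul_mem (H.inv_mem hg) ha₂) hg)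
  · rw [hm]
    exact KMM_nz _ _ _ _ _ hC hC' hd₁ hd₂ hne
  · rw [hm, Matrix.det_mul, Matrix.det_mul, hdet, mul_zero, zero_mul]
  · rw [hm']
    exact neg_ne_zero.2 (KMM_nz _ _ _ _ _ hC hC' hd₂ hd₁ hne)
  · rw [hm', Matrix.det_neg, Matrix.det_mul, Matrix.det_mul, hdet, mul_zero, zero_mul, mul_zero]

end Pool.Agent.VA
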